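import Pool.Agent.H34.TAM.Stmts2

/-! Board aut, row LEM (helper86): the derivative of log det. -/

set_option autoImplicit false

noncomputable section

namespace Pool.AUT

namespace LEM

open PowerSeries

variable {R : Type} [Ring R] [Algebra ℂ R]

/-- `δ` coefficientwise -/
def dd (δ : R →ₗ[ℂ] R) (a : PowerSeries R) : PowerSeries R := PowerSeries.mk fun n => δ (coeff n a)

/-- `X d/dX` -/
def th (a : PowerSeries R) : PowerSeries R := PowerSeries.mk fun n => (n : ℂ) • coeff n a

theorem dd_mul (δ : R →ₗ[ℂ] R) (hδ : IsDer δ) (a b : PowerSeries R) :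
    dd δ (a * b) = dd δ a * b + a * dd δ b := by
  ext n
  simp only [dd, coeff_mk, map_add, coeff_mul, map_sum, hδ _ _, ← Finset.sum_add_distrib]

theorem th_mul (a b : PowerSeries R) : th (a * b) = th a * b + a * th b := by
  ext n
  simp only [th, coeff_mk, map_add, coeff_mul, Finset.smul_sum, ← Finset.sum_add_distrib]
  refine Finset.sum_congr rfl fun p hp => ?_
  rw [Finset.HasAntidiagonal.mem_antidiagonal] at hp
  rw [smul_mul_assoc, mul_smul_comm, ← add_smul, ← hp]
  push_cast
  rfl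

theorem th_one : th (1 : PowerSeries R) = 0 := by
  ext n
  simp only [th, coeff_mk, coeff_one, map_zero]
  split_ifs with h
  · rw [h]; simp
  · rw [smul_zero]

theorem dd_one (δ : R →ₗ[ℂ] R) (hδ : IsDer δ) : dd δ (1 : PowerSeries R) = 0 := by
  have h1 : δ 1 = 0 := by
    have h := hδ 1 1
    rw [mul_one, one_mul, mul_one] at h
    exact left_eq_add.1 h
  ext n
  simp only [dd, coeff_mk, coeff_one, map_zero]
  split_ifs with h
  · exact h1
  · exact map_zero δ

theorem dd_th (δ : R →ₗ[ℂ] R) (a : PowerSeries R) : dd δ (th a) = th (dd δ a) := by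
  ext n
  simp only [dd, th, coeff_mk, map_smul]

/-- `κ` of a coefficient -/
def kk (κ : R →ₗ[ℂ] ℂ) (n : ℕ) (a : PowerSeries R) : ℂ := κ (coeff n a)

theorem kk_add (κ : R →ₗ[ℂ] ℂ) (n : ℕ) (a b : PowerSeries R) :
    kk κ n (a + b) = kk κ n a + kk κ n b := by
  unfold kk; rw [map_add, map_add]

theorem kk_neg (κ : R →ₗ[ℂ] ℂ) (n : ℕ) (a : PowerSeries R) : kk κ n (-a) = -kk κ n a := by
  unfold kk; rw [map_neg, map_neg]

theorem kk_comm (κ : R →ₗ[ℂ] ℂ) (hκ : ∀ a b, κ (a * b) = κ (b * a)) (n : ℕ)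
    (a b : PowerSeries R) : kk κ n (a * b) = kk κ n (b * a) := by
  unfold kk
  rw [coeff_mul, coeff_mul, map_sum, map_sum, ← Finset.Nat.sum_antidiagonal_swap]
  refine Finset.sum_congr rfl fun p _ => ?_
  exact hκ _ _

theorem kk_th (κ : R →ₗ[ℂ] ℂ) (n : ℕ) (a : PowerSeries R) : kk κ n (th a) = n * kk κ n a := by
  unfold kk th; rw [coeff_mk, map_smul, smul_eq_mul]

/-- the main identity -/
theorem main (κ : R →ₗ[ℂ] ℂ) (δ : R →ₗ[ℂ] R) (hκ : ∀ a b, κ (a * b) = κ (b * a)) (hδ : IsDer δ)
    (U V : PowerSeries R) (hVU : V * U = 1) (hUV : U * V = 1) (n : ℕ) :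
    (n : ℂ) * kk κ n (V * dd δ U) = kk κ n (dd δ (V * th U)) := by
  have h1 : th V = -(V * th U * V) := by
    have h := congrArg th hUV
    rw [th_mul, th_one] at h
    have h2 := congrArg (fun x => V * x) h
    simp only [mul_add, mul_zero, ← mul_assoc, hVU, one_mul] at h2
    exact eq_neg_of_add_eq_zero_right h2
  have h2 : dd δ V = -(V * dd δ U * V) := by
    have h := congrArg (dd δ) hUV
    rw [dd_mul δ hδ, dd_one δ hδ] at h
    have h2 := congrArg (fun x => V * x) h
    simp only [mul_add, mul_zero, ← mul_assoc, hVU, one_mul] at h2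
    exact eq_neg_of_add_eq_zero_right h2
  rw [← kk_th, th_mul, dd_mul δ hδ, kk_add, kk_add, h1, h2, neg_mul, neg_mul, kk_neg, kk_neg,
    dd_th, mul_assoc (V * th U) V, mul_assoc (V * dd δ U) V, kk_comm κ hκ n (V * th U)]

end LEM

open LEM in
theorem lem_thm : LEMStmt := by
  intro R _ _ κ δ hκ hδ N u v h0 hvu huv hu0
  set U : PowerSeries R := PowerSeries.mk u with hU
  set V : PowerSeries R := PowerSeries.mk v with hV
  have hVU : V * U = 1 := by
    ext n
    rw [PowerSeries.coeff_mul, PowerSeries.coeff_one]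
    simp only [hU, hV, PowerSeries.coeff_mk]
    exact hvu n
  have hUV : U * V = 1 := by
    ext n
    rw [PowerSeries.coeff_mul, PowerSeries.coeff_one]
    simp only [hU, hV, PowerSeries.coeff_mk]
    exact huv n
  -- the coefficients
  have hf : ∀ q : ℕ, ∑ p ∈ Finset.HasAntidiagonal.antidiagonal q, κ (v p.1 * δ (u p.2)) =
      κ (δ (∑ p ∈ Finset.HasAntidiagonal.antidiagonal q,
        ((p.2 : ℂ) / (q : ℂ)) • (v p.1 * u p.2))) := by
    intro q
    rcases Nat.eq_zero_or_pos q with hq | hq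
    · subst hq
      simp [hu0]
    · have hq' : (q : ℂ) ≠ 0 := by exact_mod_cast hq.ne'
      have h := main κ δ hκ hδ U V hVU hUV q
      have e1 : kk κ q (V * dd δ U) =
          ∑ p ∈ Finset.HasAntidiagonal.antidiagonal q, κ (v p.1 * δ (u p.2)) := by
        unfold kk dd
        rw [PowerSeries.coeff_mul, map_sum]
        simp only [hU, hV, PowerSeries.coeff_mk]
      have e2 : kk κ q (dd δ (V * th U)) = κ (δ (∑ p ∈ Finset.HasAntidiagonal.antidiagonal q,
          (p.2 : ℂ) • (v p.1 * u p.2))) := by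
        unfold kk dd th
        rw [PowerSeries.coeff_mk, PowerSeries.coeff_mul]
        simp only [hU, hV, PowerSeries.coeff_mk, mul_smul_comm]
      rw [e1, e2] at h
      have e3 : ∑ p ∈ Finset.HasAntidiagonal.antidiagonal q, ((p.2 : ℂ) / (q : ℂ)) • (v p.1 * u p.2) =
          (q : ℂ)⁻¹ • ∑ p ∈ Finset.HasAntidiagonal.antidiagonal q, (p.2 : ℂ) • (v p.1 * u p.2) := by
        rw [Finset.smul_sum]
        refine Finset.sum_congr rfl fun p _ => ?_
        rw [smul_smul]
        congr 1
        field_simp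
      rw [e3, map_smul, map_smul, smul_eq_mul, ← h]
      field_simp
  have hR : κ (δ (∑ q ∈ Finset.range (2 * N), ∑ p ∈ Finset.HasAntidiagonal.antidiagonal q,
      ((p.2 : ℂ) / (q : ℂ)) • (v p.1 * u p.2))) = ∑ q ∈ Finset.range (2 * N),
        ∑ p ∈ Finset.HasAntidiagonal.antidiagonal q, κ (v p.1 * δ (u p.2)) := by
    rw [map_sum δ, map_sum κ]
    exact Finset.sum_congr rfl fun q _ => (hf q).symm
  rw [hR]
  -- the left side
  rw [map_sum δ, Finset.sum_mul_sum, map_sum]
  simp only [map_sum]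
  rw [← Finset.sum_product']
  rw [← Finset.sum_fiberwise_of_maps_to (s := Finset.range N ×ˢ Finset.range N)
    (t := Finset.range (2 * N)) (g := fun p : ℕ × ℕ => p.1 + p.2)
    (fun p hp => by
      rw [Finset.mem_product, Finset.mem_range, Finset.mem_range] at hp
      rw [Finset.mem_range]
      omega)]
  refine Finset.sum_congr rfl fun q _ => ?_
  refine Finset.sum_subset ?_ ?_
  · intro p hp
    rw [Finset.mem_filter] at hp
    rw [Finset.HasAntidiagonal.mem_antidiagonal]
    exact hp.2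
  · intro p hp hp2
    rw [Finset.HasAntidiagonal.mem_antidiagonal] at hp
    have hlt : N ≤ p.1 ∨ N ≤ p.2 := by
      by_contra hcon
      push Not at hcon
      exact hp2 (Finset.mem_filter.2 ⟨Finset.mem_product.2
        ⟨Finset.mem_range.2 hcon.1, Finset.mem_range.2 hcon.2⟩, hp⟩)
    rcases hlt with h | h
    · rw [(h0 _ h).2, zero_mul, map_zero]
    · rw [(h0 _ h).1, map_zero, mul_zero, map_zero]

end Pool.AUT
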